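import Pool.Agent.H39R2.GonP.Bridge
import Pool.Agent.TH358.GP.EvC
import Pool.Agent.Helper70K9.GC.AlgK
import Pool.Agent.Helper70K9.GC.Te3
import Pool.Agent.Helper70K9.GC.PrjS

/-!
# Goncharov's polylogarithmic complexes of `S`-units of the fields `k(x)`, `k` algebraic over `F_p`

`k` is a finite field or an infinite algebraic extension of `F_p`, `F = k(x)`, `S` the set of all
closed points of the projective line over `k` whose degree divides `D` (the point `∞` belongs to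
`S`). The elements `{x}_m ⊗ y_1 ∧ ... ∧ y_j` such that `x`, `1 - x` and all `y_i` are `S`-units span
a subcomplex `Γ_S(n)` of `Γ(F,n) ⊗ ℚ`. For all `n ≥ 2` there is `C` such that `Γ_S(n)` is acyclic
for all `D ≥ 1` and all `k` with at least `C D^C` elements; for infinite `k` this is no condition.
In particular every cocycle of `Γ(k(x),n) ⊗ ℚ` in `Γ_S(n)` is a coboundary. Every finite set of
closed points is contained in such a set `S`, and `Γ(k(x),n) ⊗ ℚ` is the union of the complexes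
`Γ_S(n)`, `D = 1!, 2!, 3!, ...`.

This is the form of Goncharov's conjecture for the rings of `S`-integers `O_S`: the groups
`K_m(O_S) ⊗ ℚ` vanish for `m ≥ 2` (Harder).

The definitions of the complexes are in `Pool/Agent/H39R2/GonP/Defs.lean`.
-/

set_option autoImplicit false

namespace Pool.Agent.Results.MP_9c6ec7_al.FiniteConstantFields

open GonP Polynomial

/-- `f` is an `S`-unit of `k(x)`, `S` the set of the closed points of degree dividing `D`: `f ≠ 0`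
and all irreducible factors of its numerator and denominator have degree dividing `D`. -/
def SUnit {k : Type} [Field k] (D : ℕ) (f : RatFunc k) : Prop :=
  f ≠ 0 ∧ ∀ P : k[X], Irreducible P → P ∣ f.num ∨ P ∣ f.denom → P.natDegree ∣ D

/-- The subspace of `(B_m(F) ⊗ Λ^j F^*) ⊗ ℚ`, `F = k(x)`, spanned by all `{x}_m ⊗ y_1 ∧ ... ∧ y_j`
such that `x`, `1 - x`, `y_1`, ..., `y_j` are `S`-units. -/
noncomputable def TS (k : Type) [Field k] (D m j : ℕ) : Submodule ℚ (TQ (RatFunc k) m j) :=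
  Submodule.span ℚ {ξ | ∃ (x : RatFunc k) (y : Fin j → RatFunc k),
    SUnit D x ∧ SUnit D (1 - x) ∧ (∀ i, SUnit D (y i)) ∧
      ξ = tq m j (some x) (fun i => cl (y i))}

/-- The subspace of `Λ^j F^* ⊗ ℚ`, `F = k(x)`, spanned by all `y_1 ∧ ... ∧ y_j` such that all `y_i`
are `S`-units. -/
noncomputable def LS (k : Type) [Field k] (D j : ℕ) : Submodule ℚ (LQ (RatFunc k) j) :=
  Submodule.span ℚ {ξ | ∃ y : Fin j → RatFunc k, (∀ i, SUnit D (y i)) ∧
    ξ = lq j (fun i => cl (y i))}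

/-- The subspaces `TS` and `LS` form a subcomplex `Γ_S(n)` of `Γ(k(x),n) ⊗ ℚ`, and `Γ_S(n)` is
acyclic. -/
structure AcyclicS (k : Type) [Field k] (D n : ℕ) (Δ : Differentials (RatFunc k)) : Prop where
  sub_d : ∀ m j, m + 3 + j = n → ∀ ξ ∈ TS k D (m + 3) j, Δ.d m j ξ ∈ TS k D (m + 2) (j + 1)
  sub_e : ∀ j, 2 + j = n → ∀ ξ ∈ TS k D 2 j, Δ.e j ξ ∈ LS k D (j + 2)
  inj_d : ∀ m, m + 3 = n → ∀ ξ ∈ TS k D (m + 3) 0, Δ.d m 0 ξ = 0 → ξ = 0
  inj_e : n = 2 → ∀ ξ ∈ TS k D 2 0, Δ.e 0 ξ = 0 → ξ = 0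
  exact_d : ∀ m j, m + 3 + (j + 1) = n → ∀ ξ ∈ TS k D (m + 3) (j + 1), Δ.d m (j + 1) ξ = 0 →
    ∃ η ∈ TS k D (m + 4) j, Δ.d (m + 1) j η = ξ
  exact_e : ∀ j, 2 + (j + 1) = n → ∀ ξ ∈ TS k D 2 (j + 1), Δ.e (j + 1) ξ = 0 →
    ∃ η ∈ TS k D 3 j, Δ.d 0 j η = ξ
  surj_e : ∀ j, j + 2 = n → ∀ ξ ∈ LS k D (j + 2), ∃ η ∈ TS k D 2 j, Δ.e j η = ξ

section transport

open Pool.Agent.Helper70K9.GC

variable {k : Type} [Field k] {D : ℕ}

theorem map_TS (n j : ℕ) : (TS k D (n + 2) j).map (eT (RatFunc k) n j).toLinearMap =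
    Te3.GS (SU D) (n + 2) j := by
  unfold TS Te3.GS
  rw [Submodule.map_span]
  congr 1
  ext ξ
  constructor
  · rintro ⟨_, ⟨x, y, hx, hx1, hy, rfl⟩, rfl⟩
    refine ⟨x, fun i => H39Gon.cl (y i), ⟨hx.1, ?_, hx, hx1, fun i => ⟨y i, hy i, rfl⟩⟩, ?_⟩
    · intro h
      exact hx1.1 (by rw [h, sub_self])
    · exact eT_tq n j (some x) _
  · rintro ⟨x, y, ⟨h0, h1, h2, h3, h4⟩, rfl⟩
    choose g hg hyg using h4
    refine ⟨tq (n + 2) j (some x) (fun i => cl (g i)), ⟨x, g, h2, h3, hg, rfl⟩, ?_⟩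
    have h5 := eT_tq n j (some x) (fun i => cl (g i))
    have h6 : y = fun i => cl (g i) := funext hyg
    rw [h6]
    exact h5

theorem map_LS (j : ℕ) : (LS k D j).map (eLQ (RatFunc k) j).toLinearMap =
    Te3.LS (SU D) j := by
  unfold LS Te3.LS
  rw [Submodule.map_span]
  congr 1
  ext ξ
  constructor
  · rintro ⟨_, ⟨y, hy, rfl⟩, rfl⟩
    exact ⟨fun i => H39Gon.cl (y i), fun i => ⟨y i, hy i, rfl⟩, eLQ_lq j _⟩
  · rintro ⟨y, h4, rfl⟩
    choose g hg hyg using h4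
    refine ⟨lq j (fun i => cl (g i)), ⟨g, hg, rfl⟩, ?_⟩
    have h5 := eLQ_lq j (fun i => cl (g i))
    have h6 : y = fun i => cl (g i) := funext hyg
    rw [h6]
    exact h5

theorem toS (n j : ℕ) {ξ : TQ (RatFunc k) (n + 2) j} (h : ξ ∈ TS k D (n + 2) j) :
    eT (RatFunc k) n j ξ ∈ Te3.GS (SU D) (n + 2) j := by
  rw [← map_TS]
  exact Submodule.mem_map_of_mem h

theorem ofS (n j : ℕ) {η : H39Gon.TQ (RatFunc k) (n + 2) j}
    (h : η ∈ Te3.GS (SU D) (n + 2) j) : (eT (RatFunc k) n j).symm η ∈ TS k D (n + 2) j := by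
  rw [← map_TS] at h
  obtain ⟨ξ, hξ, rfl⟩ := h
  have h1 : (eT (RatFunc k) n j).symm ((eT (RatFunc k) n j).toLinearMap ξ) = ξ :=
    LinearEquiv.symm_apply_apply _ _
  rw [h1]
  exact hξ

theorem toL (j : ℕ) {ξ : LQ (RatFunc k) j} (h : ξ ∈ LS k D j) :
    eLQ (RatFunc k) j ξ ∈ Te3.LS (SU D) j := by
  rw [← map_LS]
  exact Submodule.mem_map_of_mem h

theorem ofL (j : ℕ) {η : H39Gon.LQ (RatFunc k) j}
    (h : η ∈ Te3.LS (SU D) j) : (eLQ (RatFunc k) j).symm η ∈ LS k D j := by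
  rw [← map_LS] at h
  obtain ⟨ξ, hξ, rfl⟩ := h
  have h1 : (eLQ (RatFunc k) j).symm ((eLQ (RatFunc k) j).toLinearMap ξ) = ξ :=
    LinearEquiv.symm_apply_apply _ _
  rw [h1]
  exact hξ

theorem main (n : ℕ) (hk : H39Gon.TaskB.ConstTors k) (D₀ : H39Gon.Differentials (RatFunc k))
    (hF : Pool.Agent.TH358.GP.EvS (RatFunc k))
    (hsd : ∀ m, m ≤ n → Te3.SDU (F := RatFunc k) (SU D) m) :
    AcyclicS k D n (ofD D₀) where
  sub_d := by
    intro m j _ ξ hξ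
    exact ofS m (j + 1) (Te3.sub_d (SU D) D₀ m j _ (toS (m + 1) j hξ))
  sub_e := by
    intro j _ ξ hξ
    exact ofL (j + 2) (Te3.sub_e (SU D) D₀ j _ (toS 0 j hξ))
  inj_d := by
    intro m _ ξ _ h0
    have h1 : D₀.d m 0 (eT (RatFunc k) (m + 1) 0 ξ) = 0 :=
      ((eT (RatFunc k) m 1).symm.map_eq_zero_iff).1 h0
    have h2 := (Pool.Agent.TH358.GP.inj_d hF D₀ m) (h1.trans (map_zero _).symm)
    exact ((eT (RatFunc k) (m + 1) 0).map_eq_zero_iff).1 h2
  inj_e := by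
    intro _ ξ _ h0
    have h1 : D₀.e 0 (eT (RatFunc k) 0 0 ξ) = 0 :=
      ((eLQ (RatFunc k) 2).symm.map_eq_zero_iff).1 h0
    have h2 := (Pool.Agent.TH358.GP.inj_e hF D₀) (h1.trans (map_zero _).symm)
    exact ((eT (RatFunc k) 0 0).map_eq_zero_iff).1 h2
  exact_d := by
    intro m j hm ξ hξ h0
    have h1 : D₀.d m (j + 1) (eT (RatFunc k) (m + 1) (j + 1) ξ) = 0 :=
      ((eT (RatFunc k) m (j + 2)).symm.map_eq_zero_iff).1 h0
    obtain ⟨η, hη, hd⟩ := Te3.cocycle_d (SU D) (PrjS.prj D) hF D₀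
      (fun f hf => PrjS.tors_SU hk D f hf) (PrjS.exists_SU D) m j
      (hsd (m + 2) (by omega)) _ (toS (m + 1) (j + 1) hξ) h1
    refine ⟨(eT (RatFunc k) (m + 2) j).symm η, ofS (m + 2) j hη, ?_⟩
    change (eT (RatFunc k) (m + 1) (j + 1)).symm (D₀.d (m + 1) j (eT (RatFunc k) (m + 2) j
      ((eT (RatFunc k) (m + 2) j).symm η))) = ξ
    rw [LinearEquiv.apply_symm_apply, hd, LinearEquiv.symm_apply_apply]
  exact_e := by
    intro j hj ξ hξ h0
    have h1 : D₀.e (j + 1) (eT (RatFunc k) 0 (j + 1) ξ) = 0 :=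
      ((eLQ (RatFunc k) (j + 3)).symm.map_eq_zero_iff).1 h0
    obtain ⟨η, hη, hd⟩ := Te3.cocycle_e (SU D) (PrjS.prj D) hF D₀
      (fun f hf => PrjS.tors_SU hk D f hf) (PrjS.exists_SU D) j
      (hsd 1 (by omega)) _ (toS 0 (j + 1) hξ) h1
    refine ⟨(eT (RatFunc k) 1 j).symm η, ofS 1 j hη, ?_⟩
    change (eT (RatFunc k) 0 (j + 1)).symm (D₀.d 0 j (eT (RatFunc k) 1 j
      ((eT (RatFunc k) 1 j).symm η))) = ξ
    rw [LinearEquiv.apply_symm_apply, hd, LinearEquiv.symm_apply_apply]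
  surj_e := by
    intro j hj ξ hξ
    obtain ⟨η, hη, hd⟩ := Te3.surj_e (SU D) (PrjS.prj D) D₀
      (fun f hf => PrjS.tors_SU hk D f hf) (PrjS.exists_SU D) j
      (hsd 0 (by omega)) _ (toL (j + 2) hξ)
    refine ⟨(eT (RatFunc k) 0 j).symm η, ofS 0 j hη, ?_⟩
    change (eLQ (RatFunc k) (j + 2)).symm (D₀.e j (eT (RatFunc k) 0 j
      ((eT (RatFunc k) 0 j).symm η))) = ξ
    rw [LinearEquiv.apply_symm_apply, hd, LinearEquiv.symm_apply_apply]

end transport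

/-- For all `n ≥ 2` there is `C` such that for all `D ≥ 1` and all fields `k` algebraic over `F_p`
(finite or infinite) with at least `C D^C` elements the differentials of the complexes
`Γ(k(x),n) ⊗ ℚ` exist and are unique and the subcomplex `Γ_S(n)` of the `S`-units, `S` the set of
the closed points of degree dividing `D`, is acyclic. -/
theorem result (n : ℕ) : ∃ C : ℕ, ∀ D : ℕ, 0 < D → ∀ (p : ℕ) [Fact p.Prime] (k : Type) [Field k]
    [Algebra (ZMod p) k] [Algebra.IsAlgebraic (ZMod p) k],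
    (∃ s : Finset k, C * D ^ C ≤ s.card) → ∃ Δ : Differentials (RatFunc k),
      (∀ Δ' : Differentials (RatFunc k), Δ' = Δ) ∧ AcyclicS k D n Δ := by
  choose f hf using fun m => Pool.Agent.Helper70K9.GC.sduA m
  refine ⟨∑ m ∈ Finset.range (n + 1), f m, fun D hD p _ k _ _ _ hk => ?_⟩
  obtain ⟨s, hs⟩ := hk
  have hF : Pool.Agent.TH358.GP.EvS (RatFunc k) :=
    Pool.Agent.TH358.GP.evS_ratFunc k (Pool.Agent.TH358.GP.evS_base
      (Pool.Agent.Helper70K9.GC.AlgL.finSub p k))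
  obtain ⟨D₀⟩ := Pool.Agent.TH358.GP.exists_D hF
  refine ⟨ofD D₀, fun Δ' => unique (ofD D₀) Δ',
    main n (Pool.Agent.Helper70K9.GC.AlgL.constTorsA p k) D₀ hF (fun m hm => ?_)⟩
  have h0 : f m ≤ ∑ m ∈ Finset.range (n + 1), f m :=
    Finset.single_le_sum (fun _ _ => Nat.zero_le _) (Finset.mem_range.2 (by omega))
  have h1 : f m * D ^ f m ≤ s.card :=
    (Nat.mul_le_mul h0 (Nat.pow_le_pow_right hD h0)).trans hs
  exact fun Q hQ g h hg hh => hf m D hD p k ⟨s, h1⟩ Q hQ g h hg hh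

end Pool.Agent.Results.MP_9c6ec7_al.FiniteConstantFields
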