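import Pool.Agent.H39R2.GonP.Bridge
import Pool.Agent.Helper70K9.GC.LocRat
import Pool.Agent.Helper70K9.GC.Perf
import Pool.Agent.Helper70K9.GC.Spd

/-!
# Goncharov's polylogarithmic complexes of `k(x)`, `k` any infinite algebraic extension of `F_p`

For `F = k(x)`, `k` an arbitrary infinite algebraic extension of `F_p` (for instance the union of
the fields with `p ^ (l ^ i)` elements, `l` a fixed prime), all the complexes `Γ(F,n) ⊗ ℚ`, `n ≥ 2`,
are acyclic.  The same holds for all fields `F` such that every finite subset of `F` is contained in
a subfield isomorphic to such a field `k(x)`, for instance for the perfect closure of `k(x)`.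
Goncharov's conjecture predicts exactly this, because `K_m(F) ⊗ ℚ = 0` for `m ≥ 2` for these fields
(Quillen, Harder).

The case that `k` is algebraically closed is the starting theorem `AcyclicRatFunc`.  If `k` is not
algebraically closed, the divisors of rational functions contain points of all degrees.  For a
functional on the products of `m + 2` closed points of degree dividing `D` one considers, for a
finite subfield `K` of `k` and its extension `E` of degree `D`, the equations `a A + b B + c C = 0`,
where `A`, `B`, `C` are products of `d` norms of linear polynomials `T - z`, `z ∈ E`, and counts its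
solutions with prescribed values of at most `2 (m + 2)` of the `3 d` variables `z`, for `|K| → ∞`
(Fourier analysis on the spaces of polynomials of degree at most `d D`, with the multiplications and
the translations by elements of `K`).

The definitions of the complexes are in `Pool/Agent/H39R2/GonP/Defs.lean`.
-/

set_option autoImplicit false

namespace Pool.Agent.Results.MP_9c6ec7_al.InfiniteConstantFields

open GonP Pool.Agent.Helper70K9.GC

/-- Every finite subset of `F` is contained in a subfield of `F` which is isomorphic to the field
`k(x)` of rational functions over an infinite algebraic extension `k` of `F_p` (which may depend on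
the finite subset). -/
def LocallyRational (p : ℕ) [Fact p.Prime] (F : Type) [Field F] : Prop :=
  ∀ s : Finset F, ∃ (k : Type) (_ : Field k) (_ : Infinite k) (_ : Algebra (ZMod p) k)
    (_ : Algebra.IsAlgebraic (ZMod p) k) (φ : RatFunc k →+* F), ∀ x ∈ s, ∃ y, φ y = x

theorem main (p : ℕ) [Fact p.Prime] (F : Type) [Field F] (h : LocallyRational p F) :
    ∃ D : Differentials F, (∀ D' : Differentials F, D' = D) ∧ D.Acyclic := by
  obtain ⟨⟨D⟩, h1⟩ := locRat_main spd p F h
  exact ⟨ofD D, fun D' => unique (ofD D) D', ofD_acyclic D (h1 D)⟩

/-- The differentials of the complexes `Γ(F,n) ⊗ ℚ`, `n ≥ 2`, exist and are unique, and all these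
complexes are acyclic, for `F = k(x)`, `k` an infinite algebraic extension of `F_p`, for all fields
`F` which are locally of this form, and for the perfect closures of the fields `k(x)`. -/
theorem result (p : ℕ) [Fact p.Prime] :
    (∀ (k : Type) [Field k] [Infinite k] [Algebra (ZMod p) k] [Algebra.IsAlgebraic (ZMod p) k],
      ∃ D : Differentials (RatFunc k),
        (∀ D' : Differentials (RatFunc k), D' = D) ∧ D.Acyclic) ∧
    (∀ (F : Type) [Field F], LocallyRational p F →
      ∃ D : Differentials F, (∀ D' : Differentials F, D' = D) ∧ D.Acyclic) ∧
    ∀ (k : Type) [Field k] [Infinite k] [Algebra (ZMod p) k] [Algebra.IsAlgebraic (ZMod p) k]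
      [CharP (RatFunc k) p], LocallyRational p (PerfectClosure (RatFunc k) p) := by
  refine ⟨fun k _ _ _ _ => main p (RatFunc k) (locRat_ratFunc p k), fun F _ h => main p F h, ?_⟩
  intro k _ _ _ _ _ s
  obtain ⟨n, hn⟩ := perf_mem (RatFunc k) p s
  exact ⟨k, inferInstance, inferInstance, inferInstance, inferInstance, rootMap (RatFunc k) p n, hn⟩

end Pool.Agent.Results.MP_9c6ec7_al.InfiniteConstantFields
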