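import Pool.Agent.Helper87K9.PL.GBr
import Pool.Agent.Helper87K9.PL.Span
import Pool.Agent.Helper87K9.PL.Five

set_option autoImplicit false

/-!
# Goncharov's polylogarithmic complexes of `ℚ` in degree `n - 1`

For `F = ℚ` and all `n ≥ 3` (`n = j + 3`) the kernel of the last differential
`(B_2(ℚ) ⊗ Λ^{n-2} ℚ^*)_ℚ → (Λ^n ℚ^*)_ℚ` of `Γ(ℚ,n) ⊗ ℚ` is the image of
`(B_3(ℚ) ⊗ Λ^{n-3} ℚ^*)_ℚ`, i.e. the span of the elements `{x}_2 ⊗ x ∧ y_1 ∧ ... ∧ y_{n-3}`, plus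
the span of the elements `β ⊗ y_1 ∧ ... ∧ y_{n-2}`, `β` in the Bloch group
`ker (δ_2 : B_2(ℚ) → Λ^2 ℚ^*)`.

The groups `B_n(F)` and the terms and differentials of `Γ(F,n) ⊗ ℚ` are defined in
`Pool/Agent/H39R2/GonP/Defs.lean`, `ImD` and `BlochP` in `Pool/Agent/Helper87K9/PL/GDefs.lean`.
-/

namespace Pool.Agent.Results.MP_9c6ec7_al.RationalNumbers

open GonP Pool.Agent.Helper87K9.PL

theorem result :
    -- the last differentials `(B_2(ℚ) ⊗ Λ^j ℚ^*)_ℚ → (Λ^{j+2} ℚ^*)_ℚ` exist and are unique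
    (∀ j : ℕ, ∃! e : TQ ℚ 2 j → LQ ℚ (j + 2), IsE j e) ∧
    -- `ImD ℚ j` is the image of the differential `(B_3(ℚ) ⊗ Λ^j ℚ^*)_ℚ → (B_2(ℚ) ⊗ Λ^{j+1} ℚ^*)_ℚ`
    (∀ (j : ℕ) (d : TQ ℚ 3 j → TQ ℚ 2 (j + 1)), IsD 0 j d →
      ∀ u, u ∈ ImD ℚ j ↔ ∃ v, d v = u) ∧
    -- the kernel of the last differential of `Γ(ℚ,n) ⊗ ℚ`, `n = j + 3`
    ∀ (j : ℕ) (e : TQ ℚ 2 (j + 1) → LQ ℚ (j + 3)), IsE (j + 1) e →
      ∀ u, e u = 0 ↔ u ∈ ImD ℚ j ⊔ BlochP ℚ (j + 1) :=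
  ⟨fun j => exists_e ℚ j, fun j d hd u => range_d j d hd u,
    fun j e he u => ker_e (spanDual_rat five) j e he u⟩

end Pool.Agent.Results.MP_9c6ec7_al.RationalNumbers
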